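import Pool.Agent.N112.WM.Stm2
set_option autoImplicit false

/-! Generators of a finitely generated abelian group modulo its elements of order prime to `m`
(WM7; helper849, adapted from `H137R2/Weak/Rank.lean`). -/

open scoped Classical DirectSum
set_option linter.unusedSectionVars false
set_option linter.unusedVariables false

namespace Pool.Agent.N849.WM

section model

variable {n : ℕ} {ι : Type} [Fintype ι] {q : ι → ℕ} {m : ℕ}

/-- indices with modulus not prime to `m` -/
noncomputable def bad (q : ι → ℕ) (m : ℕ) : Finset ι :=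
  Finset.univ.filter (fun i => ¬ Nat.Coprime (q i) m)

theorem mem_bad {i : ι} : i ∈ bad q m ↔ ¬ Nat.Coprime (q i) m := by
  unfold bad
  rw [Finset.mem_filter]
  exact ⟨fun h => h.2, fun h => ⟨Finset.mem_univ _, h⟩⟩

/-- reduction modulo `m` -/
noncomputable def red (n : ℕ) (q : ι → ℕ) (m : ℕ) :
    ((Fin n →₀ ℤ) × ⨁ i : ι, ZMod (q i)) →+
      (Fin n → ZMod m) × ((i : bad q m) → ZMod (Nat.gcd (q i) m)) where
  toFun x := (fun j => ((x.1 j : ℤ) : ZMod m),
    fun i => ZMod.castHom (Nat.gcd_dvd_left (q i) m) (ZMod (Nat.gcd (q i) m)) (x.2 i.1))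
  map_zero' := by
    ext
    · simp
    · simp
  map_add' x y := by
    ext j
    · simp
    · change ZMod.castHom (Nat.gcd_dvd_left (q j) m) (ZMod (Nat.gcd (q j) m))
        (x.2 j.1 + y.2 j.1) = _
      rw [map_add]
      rfl

theorem red_surj (hm : m ≠ 0) (hq : ∀ i, q i ≠ 0) : Function.Surjective (red n q m) := by
  haveI : NeZero m := ⟨hm⟩
  haveI : ∀ i, NeZero (Nat.gcd (q i) m) := fun i => ⟨Nat.gcd_ne_zero_right hm⟩
  rintro ⟨a, b⟩
  refine ⟨(Finsupp.equivFunOnFinite.symm (fun j => ((a j).val : ℤ)),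
    (DFinsupp.equivFunOnFintype.symm (fun i => if h : i ∈ bad q m then
      (((b ⟨i, h⟩).val : ℕ) : ZMod (q i)) else 0) : Π₀ i, ZMod (q i))), ?_⟩
  unfold red
  ext j
  · change (((a j).val : ℤ) : ZMod m) = a j
    simp
  · change ZMod.castHom (Nat.gcd_dvd_left (q j) m) (ZMod (Nat.gcd (q j) m))
      (if h : j.1 ∈ bad q m then (((b ⟨j.1, h⟩).val : ℕ) : ZMod (q j.1)) else 0) = b j
    rw [dif_pos j.2, map_natCast]
    simp

/-- generators -/
noncomputable def gens (n : ℕ) (q : ι → ℕ) (m : ℕ) :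
    Finset ((Fin n →₀ ℤ) × ⨁ i : ι, ZMod (q i)) :=
  Finset.univ.image (fun j : Fin n => (Finsupp.single j 1, 0)) ∪
    (bad q m).image (fun i => (0, DirectSum.of (fun i => ZMod (q i)) i 1))

theorem card_gens : (gens n q m).card ≤ n + (bad q m).card := by
  unfold gens
  refine (Finset.card_union_le _ _).trans ?_
  refine Nat.add_le_add (Finset.card_image_le.trans ?_) Finset.card_image_le
  rw [Finset.card_univ, Fintype.card_fin]

theorem left_mem (v : Fin n →₀ ℤ) :
    ((v, 0) : (Fin n →₀ ℤ) × ⨁ i : ι, ZMod (q i)) ∈ AddSubgroup.closure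
      (gens n q m : Set ((Fin n →₀ ℤ) × ⨁ i : ι, ZMod (q i))) := by
  have h1 : v = ∑ j, v j • Finsupp.single j (1 : ℤ) := by
    ext k
    rw [Finsupp.finsetSum_apply]
    simp [Finsupp.single_apply]
  have h2 : ((v, 0) : (Fin n →₀ ℤ) × ⨁ i : ι, ZMod (q i)) =
      ∑ j, v j • ((Finsupp.single j (1 : ℤ), 0) : (Fin n →₀ ℤ) × ⨁ i : ι, ZMod (q i)) := by
    refine Prod.ext ?_ ?_
    · rw [Prod.fst_sum]
      simpa using h1
    · rw [Prod.snd_sum]
      simp
  rw [h2]
  refine AddSubgroup.sum_mem _ fun j _ => AddSubgroup.zsmul_mem _ ?_ _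
  apply AddSubgroup.subset_closure
  unfold gens
  rw [Finset.coe_union]
  left
  exact Finset.mem_coe.2 (Finset.mem_image.2 ⟨j, Finset.mem_univ _, rfl⟩)

theorem right_mem (hq : ∀ i, q i ≠ 0) {i : ι} (hi : i ∈ bad q m) (c : ZMod (q i)) :
    ((0, DirectSum.of (fun i => ZMod (q i)) i c) : (Fin n →₀ ℤ) × ⨁ i : ι, ZMod (q i)) ∈
      AddSubgroup.closure (gens n q m : Set ((Fin n →₀ ℤ) × ⨁ i : ι, ZMod (q i))) := by
  have : NeZero (q i) := ⟨hq i⟩
  have h1 : c = c.val • (1 : ZMod (q i)) := by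
    rw [nsmul_eq_mul, mul_one, ZMod.natCast_zmod_val]
  have h2 : ((0, DirectSum.of (fun i => ZMod (q i)) i c) :
      (Fin n →₀ ℤ) × ⨁ i : ι, ZMod (q i)) =
      c.val • ((0, DirectSum.of (fun i => ZMod (q i)) i 1) :
        (Fin n →₀ ℤ) × ⨁ i : ι, ZMod (q i)) := by
    refine Prod.ext ?_ ?_
    · simp
    · change DirectSum.of (fun i => ZMod (q i)) i c =
        c.val • DirectSum.of (fun i => ZMod (q i)) i 1
      rw [← map_nsmul, ← h1]
  rw [h2]
  refine AddSubgroup.nsmul_mem _ ?_ _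
  apply AddSubgroup.subset_closure
  unfold gens
  rw [Finset.coe_union]
  right
  exact Finset.mem_coe.2 (Finset.mem_image.2 ⟨i, hi, rfl⟩)

theorem model_gen (hq : ∀ i, q i ≠ 0) (x : (Fin n →₀ ℤ) × ⨁ i : ι, ZMod (q i)) :
    ∃ k : ℕ, Nat.Coprime k m ∧ ∃ y ∈ AddSubgroup.closure
      (gens n q m : Set ((Fin n →₀ ℤ) × ⨁ i : ι, ZMod (q i))), k • (x - y) = 0 := by
  obtain ⟨v, u⟩ := x
  refine ⟨∏ i ∈ Finset.univ.filter (fun i => i ∉ bad q m), q i, ?_,
    (v, 0) + ∑ i ∈ bad q m, (0, DirectSum.of (fun i => ZMod (q i)) i (u i)), ?_, ?_⟩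
  · refine Nat.Coprime.prod_left fun i hi => ?_
    by_contra h
    exact (Finset.mem_filter.1 hi).2 (mem_bad.2 h)
  · exact AddSubgroup.add_mem _ (left_mem v)
      (AddSubgroup.sum_mem _ fun i hi => right_mem hq hi _)
  · refine Prod.ext ?_ ?_
    · simp [Prod.fst_sum]
    · change (∏ i ∈ Finset.univ.filter (fun i => i ∉ bad q m), q i) •
        (u - (0 + ∑ i ∈ bad q m, (0, DirectSum.of (fun i => ZMod (q i)) i (u i)) :
          (Fin n →₀ ℤ) × ⨁ i : ι, ZMod (q i)).2) = 0
      rw [zero_add, Prod.snd_sum]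
      refine DFinsupp.ext fun k => ?_
      change (∏ i ∈ Finset.univ.filter (fun i => i ∉ bad q m), q i) •
        (u k - (∑ i ∈ bad q m, DirectSum.of (fun i => ZMod (q i)) i (u i) :
          ⨁ i : ι, ZMod (q i)) k) = 0
      have h1 : (∑ i ∈ bad q m, DirectSum.of (fun i => ZMod (q i)) i (u i) :
          ⨁ i : ι, ZMod (q i)) k =
          ∑ i ∈ bad q m, (DirectSum.of (fun i => ZMod (q i)) i (u i)) k :=
        DFinsupp.finsetSum_apply _ _ _
      rw [h1]
      by_cases hk : k ∈ bad q m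
      · rw [Finset.sum_eq_single k]
        · rw [DirectSum.of_eq_same, sub_self, smul_zero]
        · intro i _ hik
          exact DirectSum.of_eq_of_ne _ _ _ (Ne.symm hik)
        · intro h
          exact absurd hk h
      · rw [Finset.sum_eq_zero]
        · rw [sub_zero, nsmul_eq_mul]
          have h2 : q k ∣ ∏ i ∈ Finset.univ.filter (fun i => i ∉ bad q m), q i :=
            Finset.dvd_prod_of_mem q (Finset.mem_filter.2 ⟨Finset.mem_univ _, hk⟩)
          rw [(ZMod.natCast_eq_zero_iff _ _).2 h2, zero_mul]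
        · intro i hi
          refine DirectSum.of_eq_of_ne _ _ _ ?_
          rintro rfl
          exact hk hi

end model

/-- a finitely generated abelian group is generated, modulo elements of order prime to `m`, by at
most `log_2 |Q / mQ|` elements -/
theorem rank_gen {Q : Type*} [AddCommGroup Q] [AddGroup.FG Q] (m : ℕ) (hm : 2 ≤ m)
    (h : (nsmulAddMonoidHom (α := Q) m).range.index ≠ 0) :
    ∃ S : Finset Q, 2 ^ S.card ≤ (nsmulAddMonoidHom (α := Q) m).range.index ∧
      ∀ x : Q, ∃ k : ℕ, Nat.Coprime k m ∧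
        ∃ y ∈ AddSubgroup.closure (S : Set Q), k • (x - y) = 0 := by
  obtain ⟨n, ι, hι, p, hp, e, ⟨f⟩⟩ := AddCommGroup.equiv_free_prod_directSum_zmod Q
  have hm0 : m ≠ 0 := by omega
  haveI : NeZero m := ⟨hm0⟩
  set q : ι → ℕ := fun i => p i ^ e i with hq
  have hq0 : ∀ i, q i ≠ 0 := fun i => pow_ne_zero _ (hp i).ne_zero
  haveI : ∀ i, NeZero (Nat.gcd (q i) m) := fun i => ⟨Nat.gcd_ne_zero_right hm0⟩
  set F : Q →+ (Fin n → ZMod m) × ((i : bad q m) → ZMod (Nat.gcd (q i) m)) :=
    (red n q m).comp f.toAddMonoidHom with hF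
  have hFs : Function.Surjective F := (red_surj hm0 hq0).comp f.surjective
  have hker : (nsmulAddMonoidHom (α := Q) m).range ≤ F.ker := by
    rintro x ⟨y, rfl⟩
    rw [AddMonoidHom.mem_ker, nsmulAddMonoidHom_apply, map_nsmul]
    refine Prod.ext ?_ ?_
    · funext j
      change m • (F y).1 j = 0
      rw [nsmul_eq_mul, ZMod.natCast_self, zero_mul]
    · funext j
      change m • (F y).2 j = 0
      rw [nsmul_eq_mul, (ZMod.natCast_eq_zero_iff _ _).2 (Nat.gcd_dvd_right (q j) m), zero_mul]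
  have hidx : F.ker.index = m ^ n * ∏ i : bad q m, Nat.gcd (q i) m := by
    rw [AddSubgroup.index_ker, AddMonoidHom.range_eq_top.2 hFs, AddSubgroup.card_top,
      Nat.card_prod, Nat.card_eq_fintype_card, Nat.card_eq_fintype_card, Fintype.card_fun,
      Fintype.card_pi, ZMod.card, Fintype.card_fin]
    congr 1
    exact Finset.prod_congr rfl fun i _ => ZMod.card _
  have hle0 : 2 ^ (n + (bad q m).card) ≤ F.ker.index := by
    rw [hidx, pow_add]
    refine Nat.mul_le_mul (Nat.pow_le_pow_left hm n) ?_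
    have h1 : ∏ i : bad q m, 2 ≤ ∏ i : bad q m, Nat.gcd (q i) m := by
      refine Finset.prod_le_prod' fun i _ => ?_
      have h2 : Nat.gcd (q i) m ≠ 0 := Nat.gcd_ne_zero_right hm0
      have h3 : Nat.gcd (q i) m ≠ 1 := mem_bad.1 i.2
      omega
    rwa [Finset.prod_const, Finset.card_univ, Fintype.card_coe] at h1
  have hle : 2 ^ (n + (bad q m).card) ≤ (nsmulAddMonoidHom (α := Q) m).range.index :=
    hle0.trans (Nat.le_of_dvd (Nat.pos_of_ne_zero h) (AddSubgroup.index_dvd_of_le hker))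
  refine ⟨(gens n q m).image f.symm, ?_, ?_⟩
  · refine le_trans (Nat.pow_le_pow_right (by norm_num) ?_) hle
    exact Finset.card_image_le.trans card_gens
  · intro x
    obtain ⟨k, hk, y, hy, hxy⟩ := model_gen (m := m) hq0 (f x)
    refine ⟨k, hk, f.symm y, ?_, ?_⟩
    · have h1 : AddSubgroup.closure (((gens n q m).image f.symm : Finset Q) : Set Q) =
          (AddSubgroup.closure (gens n q m : Set _)).map f.symm.toAddMonoidHom := by
        rw [AddMonoidHom.map_closure, Finset.coe_image]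
        rfl
      rw [h1]
      exact AddSubgroup.mem_map.2 ⟨y, hy, rfl⟩
    · apply f.injective
      rw [map_nsmul, map_sub, f.apply_symm_apply, hxy, map_zero]

universe u

theorem rankM : Pool.Agent.N112.WM.StmRankM.{u} := by
  intro Q _ _ m hm h
  exact rank_gen m hm h

end Pool.Agent.N849.WM
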